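import Mathlib

/-!
Board GZZ (MP_52e316_nt): a bound for an entire function times a product of small factors, on a disc,
gives a bound at the centre: a circle avoids the zeros of the factors, maximum principle.
-/

set_option autoImplicit false

namespace Pool.Agent.H27.L1.H55.GZZ

/-- the bound at the centre from the weighted bounds on a disc -/
def T_CIR : Prop := ∀ (n : ℕ) (e : ℝ), 0 < e → ∃ C : ℝ, 0 < C ∧
  ∀ (L : ℂ → ℂ) (z : Fin n → ℂ) (s0 : ℂ) (U : ℝ), Differentiable ℂ L →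
    (∀ s : ℂ, ‖s - s0‖ ≤ e → ‖L s‖ * ∏ i, min 1 ‖s - z i‖ ≤ U) → ‖L s0‖ ≤ C * U

/-- a radius which avoids finitely many numbers -/
theorem cir_radius (n : ℕ) (e : ℝ) (he : 0 < e) (x : Fin n → ℝ) :
    ∃ r : ℝ, 0 < r ∧ r ≤ e ∧ ∀ i, e / (2 * (n + 1)) ≤ |r - x i| := by
  -- the n + 1 candidates (2 j + 1) e / (2 (n + 1)), j = 0, ..., n, have distances at least e / (n + 1)
  by_contra hcon
  push Not at hcon
  have hn : (0 : ℝ) < n + 1 := by positivity
  have hc : ∀ j : Fin (n + 1), ∃ i : Fin n,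
      |(((j : ℕ) : ℝ) + 1) * e / (n + 1) - x i| < e / (2 * (n + 1)) := by
    intro j
    refine hcon _ (by positivity) ?_
    rw [div_le_iff₀ hn]
    have hj : (((j : ℕ) : ℝ)) + 1 ≤ n + 1 := by
      have := j.2
      have h2 : (j : ℕ) + 1 ≤ n + 1 := by omega
      exact_mod_cast h2
    nlinarith
  choose f hf using hc
  obtain ⟨j, k, hjk, hfe⟩ := Fintype.exists_ne_map_eq_of_card_lt f (by simp)
  have h1 := hf j
  have h2 := hf k
  rw [hfe] at h1
  have h3 : |(((j : ℕ) : ℝ) + 1) * e / (n + 1) - (((k : ℕ) : ℝ) + 1) * e / (n + 1)| <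
      e / (n + 1) := by
    have h4 : (((j : ℕ) : ℝ) + 1) * e / (n + 1) - (((k : ℕ) : ℝ) + 1) * e / (n + 1) =
        ((((j : ℕ) : ℝ) + 1) * e / (n + 1) - x (f k)) -
        ((((k : ℕ) : ℝ) + 1) * e / (n + 1) - x (f k)) := by ring
    rw [h4]
    refine lt_of_le_of_lt (abs_sub _ _) ?_
    have h5 : e / (n + 1) = e / (2 * (n + 1)) + e / (2 * (n + 1)) := by
      field_simp
      ring
    rw [h5]
    exact add_lt_add h1 h2
  have h6 : (((j : ℕ) : ℝ) + 1) * e / (n + 1) - (((k : ℕ) : ℝ) + 1) * e / (n + 1) =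
      (((j : ℕ) : ℤ) - ((k : ℕ) : ℤ) : ℤ) * (e / (n + 1)) := by
    push_cast
    ring
  rw [h6, abs_mul, abs_of_pos (div_pos he hn)] at h3
  have h7 : (1 : ℝ) ≤ |(((((j : ℕ) : ℤ) - ((k : ℕ) : ℤ) : ℤ)) : ℝ)| := by
    have h8 : (((j : ℕ) : ℤ) - ((k : ℕ) : ℤ)) ≠ 0 := by
      intro h
      apply hjk
      ext
      omega
    exact_mod_cast Int.one_le_abs h8
  nlinarith [div_pos he hn]

theorem pf_CIR : T_CIR := by
  intro n e he
  have hn : (0 : ℝ) < n + 1 := by positivity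
  set q : ℝ := min 1 (e / (2 * (n + 1))) with hq
  have hq0 : 0 < q := lt_min one_pos (by positivity)
  refine ⟨(q ^ n)⁻¹, by positivity, ?_⟩
  intro L z s0 U hL hU
  obtain ⟨r, hr0, hre, hr⟩ := cir_radius n e he (fun i => ‖z i - s0‖)
  have hb : ∀ s ∈ frontier (Metric.ball s0 r), ‖L s‖ ≤ (q ^ n)⁻¹ * U := by
    intro s hs
    rw [frontier_ball s0 hr0.ne', mem_sphere_iff_norm] at hs
    have h1 := hU s (by rw [hs]; exact hre)
    have h2 : q ^ n ≤ ∏ i, min 1 ‖s - z i‖ := by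
      calc q ^ n = ∏ _i : Fin n, q := by simp
        _ ≤ ∏ i, min 1 ‖s - z i‖ := by
          refine Finset.prod_le_prod (fun _ _ => hq0.le) (fun i _ => ?_)
          refine le_min (min_le_left _ _) ((min_le_right _ _).trans ((hr i).trans ?_))
          have h3 : s - z i = (s - s0) - (z i - s0) := by ring
          rw [h3, ← hs]
          exact abs_norm_sub_norm_le _ _
    have h4 : ‖L s‖ * q ^ n ≤ U :=
      (mul_le_mul_of_nonneg_left h2 (norm_nonneg _)).trans h1
    rw [inv_mul_eq_div, le_div_iff₀ (by positivity)]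
    exact h4
  exact Complex.norm_le_of_forall_mem_frontier_norm_le Metric.isBounded_ball
    hL.diffContOnCl hb (subset_closure (Metric.mem_ball_self hr0))

end Pool.Agent.H27.L1.H55.GZZ
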